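import Pool.Agent.H81.XF.Ph1

/-!
# Saturation: the position at a uniform time

Given the plank `B`, one coordinate of the position at a uniform time is full. If the directions
of the planks of three independent samples with the same position (at the same uniform time, in
the same box) are linearly independent, then all three coordinates are full.
-/

set_option autoImplicit false

namespace Pool.XF

open Finset Real
open Pool.Agent.H49.Ent Pool.Agent.H32.Dense Pool.STK Pool.KA Pool.KSAT Pool.K2S Pool.PC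

theorem det3_smul (a b c : Fin 3 → ℝ) (r s t : ℝ) :
    det3 (fun j => r * a j) (fun j => s * b j) (fun j => t * c j) = r * s * t * det3 a b c := by
  unfold det3
  ring

/-- **Saturation.** `ξ` is the position at a uniform time `τ` in the box `b`. -/
theorem sat3 (C₁ : ℝ) (hC₁ : 1 ≤ C₁) : ∃ (C : ℝ) (L : ℕ), 0 ≤ C ∧
    ∀ (Ω T U : Type) [Fintype Ω] (p : Ω → ℝ) (b : Ω → T) (B : Ω → U)
      (Y : Ω → Fin 2 → Fin 3 → ℝ) (E : Ω → Fin 3 → ℝ) (K s x : ℕ) (p₁ θ : ℝ),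
      IsLaw p →
      (∀ ω, 0 < p ω → ∀ j, |E ω j| ≤ C₁) →
      (∀ ω ω', 0 < p ω → 0 < p ω' → b ω = b ω' → ∀ a j, |Y ω a j - Y ω' a j| ≤ 1) →
      (∀ ω ω', 0 < p ω → 0 < p ω' → b ω = b ω' → B ω = B ω' → ∀ r : ℝ,
        (∀ a j, |Y ω a j - Y ω' a j| ≤ r) → ∀ a, ∃ t : ℝ, |t| ≤ C₁ * r ∧
          ∀ j, |Y ω a j - Y ω' a j - t * E ω j| ≤ C₁ / 2 ^ (K * s)) →
      x + L ≤ s →
      Pe (tri (uni (K * s) p) (fun u => (upos (K * s) Y u, (u.2, b u.1))))
        (fun u => |det3 (E u.1.1.1) (E u.1.2.1) (E u.2.1)| ≤ 1 / 2 ^ x) ≤ p₁ →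
      (K * s : ℕ) * Real.log 2 ≤ CH (uni (K * s) p) (upos (K * s) Y)
        (fun u => (u.2, (B u.1, b u.1))) + θ →
      3 * ((K * s : ℕ) * Real.log 2) ≤ CH (uni (K * s) p) (upos (K * s) Y)
        (fun u => (u.2, b u.1)) + (3 * θ + C * (s + (x + 1) * K + p₁ * (K * s))) := by
  obtain ⟨C₂, hC₂⟩ : ∃ C₂, C₂ = 2 * C₁ + 2 := ⟨_, rfl⟩
  have hC₂1 : 1 ≤ C₂ := by linarith
  obtain ⟨Ck, Lk, hCk, kak⟩ := kak3 C₂ hC₂1
  obtain ⟨L', hL'⟩ : ∃ L : ℕ, C₁ * C₁ * C₁ ≤ 2 ^ L := by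
    obtain ⟨L, hL⟩ := pow_unbounded_of_one_lt (C₁ * C₁ * C₁) (by norm_num : (1 : ℝ) < 2)
    exact ⟨L, hL.le⟩
  have l11 : 0 ≤ Real.log 11 := Real.log_nonneg (by norm_num)
  refine ⟨Ck * (L' + 1) + 9 * Real.log 11, L' + Lk + 1, by positivity, ?_⟩
  intro Ω T U _ p b B Y E K s x p₁ θ hp hE hb1 hpl hxs hp1 hθ
  obtain ⟨N, hN⟩ : ∃ N, N = K * s := ⟨_, rfl⟩
  rw [← hN] at hp1 hθ hpl ⊢
  have hq := uni_law hp N
  have hq0 := hq.nonneg
  have h2N : (0 : ℝ) < 2 ^ N := by positivity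
  have hs1 : 1 ≤ s := by omega
  -- the normalised direction
  have hex : ∀ ω : Ω, ∃ κ : Fin 3, ∀ j, |E ω j| ≤ |E ω κ| := by
    intro ω
    obtain ⟨κ, -, hκ⟩ := Finset.exists_max_image Finset.univ
      (fun j : Fin 3 => |E ω j|) ⟨0, Finset.mem_univ _⟩
    exact ⟨κ, fun j => hκ j (Finset.mem_univ _)⟩
  choose κ hκ using hex
  obtain ⟨E', hE'⟩ : ∃ E' : Ω → Fin 3 → ℝ, E' = fun ω j => E ω j / |E ω (κ ω)| := ⟨_, rfl⟩
  have hEn : ∀ ω j, E ω j = |E ω (κ ω)| * E' ω j := by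
    intro ω j
    rw [hE']
    dsimp only
    rcases eq_or_ne |E ω (κ ω)| 0 with h | h
    · have := hκ ω j
      rw [h] at this
      rw [h, zero_mul]
      exact abs_eq_zero.mp (le_antisymm this (abs_nonneg _))
    · field_simp
  have hE1 : ∀ ω j, |E' ω j| ≤ 1 := by
    intro ω j
    rw [hE']
    dsimp only
    rw [abs_div, abs_abs]
    exact div_le_one_of_le₀ (hκ ω j) (abs_nonneg _)
  -- the position
  obtain ⟨Y', hY'⟩ : ∃ Y' : Ω × Fin (2 ^ N) → Fin 2 → Fin 3 → ℝ,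
    Y' = fun u _ j => (upos N Y u j : ℝ) / (4 * 2 ^ N) := ⟨_, rfl⟩
  obtain ⟨W, hW⟩ : ∃ W : Ω × Fin (2 ^ N) → Fin (2 ^ N) × T, W = fun u => (u.2, b u.1) :=
    ⟨_, rfl⟩
  have hWe : ∀ u u', W u = W u' → u.2 = u'.2 ∧ b u.1 = b u'.1 := by
    intro u u' h
    rw [hW] at h
    exact Prod.ext_iff.mp h
  -- the rounding error
  have rnd : ∀ u u' : Ω × Fin (2 ^ N), u.2 = u'.2 → ∀ a j, ∃ e : ℝ, |e| ≤ 1 / 2 ^ N ∧
      Y' u a j - Y' u' a j = ((Y u.1 0 j - Y u'.1 0 j) +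
        ((u.2 : ℕ) : ℝ) / 2 ^ N * (Y u.1 1 j - Y u'.1 1 j) + e) / 4 := by
    intro u u' hi a j
    obtain ⟨z, hz⟩ : ∃ z, z = (2 : ℝ) ^ N * (Y u.1 0 j + ((u.2 : ℕ) : ℝ) / 2 ^ N * Y u.1 1 j) :=
      ⟨_, rfl⟩
    obtain ⟨z', hz'⟩ : ∃ z, z = (2 : ℝ) ^ N * (Y u'.1 0 j + ((u.2 : ℕ) : ℝ) / 2 ^ N *
      Y u'.1 1 j) := ⟨_, rfl⟩
    have e1 : upos N Y u j = ⌊z⌋ := by rw [hz]; rfl
    have e2 : upos N Y u' j = ⌊z'⌋ := by rw [hz', hi]; rfl
    refine ⟨((⌊z⌋ - z) - (⌊z'⌋ - z')) / 2 ^ N, ?_, ?_⟩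
    · rw [abs_div, abs_of_pos h2N]
      refine div_le_div_of_nonneg_right ?_ h2N.le
      have f1 := Int.floor_le z
      have f2 := Int.lt_floor_add_one z
      have f3 := Int.floor_le z'
      have f4 := Int.lt_floor_add_one z'
      rw [abs_le]
      constructor <;> linarith
    · rw [hY']
      dsimp only
      rw [e1, e2]
      have e3 : z - z' = 2 ^ N * ((Y u.1 0 j - Y u'.1 0 j) +
        ((u.2 : ℕ) : ℝ) / 2 ^ N * (Y u.1 1 j - Y u'.1 1 j)) := by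
        rw [hz, hz']
        ring
      have e4 : (Y u.1 0 j - Y u'.1 0 j) + ((u.2 : ℕ) : ℝ) / 2 ^ N * (Y u.1 1 j - Y u'.1 1 j) =
          (z - z') / 2 ^ N := by
        rw [e3]
        field_simp
      rw [e4]
      field_simp
      ring
  have key := kak (Ω × Fin (2 ^ N)) _ _ _ (uni N p) (fun u => (upos N Y u, (u.2, b u.1)))
    W (fun u => B u.1) Y' (fun u => E' u.1) K s (x + L') p₁ hq ?_ ?_ ?_ ?_ ?_ (by omega) ?_
  · rw [← hN] at key
    obtain ⟨Z, hZ⟩ : ∃ Z, Z = dg N Y' := ⟨_, rfl⟩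
    rw [← hZ] at key
    have hZe : ∀ u, Z u = fun i => ⌊(upos N Y u i.2 : ℝ) / 4⌋ := by
      intro u
      rw [hZ]
      funext i
      unfold dg
      rw [hY']
      dsimp only
      congr 1
      field_simp
    have d1 : CH (uni N p) Z W ≤ CH (uni N p) (upos N Y) W := by
      refine CH_mono_left hq0 ?_
      intro u u' _ _ h
      have h1 := (Prod.ext_iff.mp h).1
      simp only at h1
      rw [hZe, hZe, h1]
    have d2 := CH_le_add hq0 (upos N Y) Z (fun u => (u.2, (B u.1, b u.1)))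
    have d3 : CH (uni N p) (upos N Y) (fun u => (Z u, (u.2, (B u.1, b u.1)))) ≤
        3 * Real.log 11 := by
      have h := CH_bI hq (upos N Y) (fun u => (Z u, (u.2, (B u.1, b u.1)))) 5 (by norm_num) ?_
      · rw [Fintype.card_fin] at h
        refine h.trans (le_of_eq ?_)
        norm_num
      · intro u u' hu hu' h j
        have h1 := (Prod.ext_iff.mp h).1
        simp only at h1
        rw [hZe, hZe] at h1
        have h2 := congrFun h1 (0, j)
        simp only at h2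
        have f1 := Int.floor_le ((upos N Y u j : ℝ) / 4)
        have f2 := Int.lt_floor_add_one ((upos N Y u j : ℝ) / 4)
        have f3 := Int.floor_le ((upos N Y u' j : ℝ) / 4)
        have f4 := Int.lt_floor_add_one ((upos N Y u' j : ℝ) / 4)
        rw [h2] at f1 f2
        push_cast
        rw [abs_le]
        constructor <;> linarith
    have d4 : CH (uni N p) Z (fun u => (u.2, (B u.1, b u.1))) =
        CH (uni N p) Z (fun u => (B u.1, W u)) := by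
      rw [hW]
      refine CH_congr hq0 ?_ ?_ ?_ ?_ <;>
      · intro u u' _ _ h
        simp only [Prod.mk.injEq] at h ⊢
        tauto
    have hp10 : 0 ≤ p₁ := by
      refine (Pe_nonneg ?_ _).trans hp1
      have m1 : Marg (tri (uni N p) (fun u => (upos N Y u, (u.2, b u.1)))) (uni N p)
        (fun u => u.1.1) := tri_1 hq0
      exact ⟨fun u => tri_nonneg hq0 u, by rw [m1.sum]; exact hq.sum_one⟩
    have hKs : ((K : ℝ) * s) = ((N : ℕ) : ℝ) := by
      rw [hN]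
      push_cast
      ring
    rw [← hW]
    have hs0 : (1 : ℝ) ≤ s := by exact_mod_cast hs1
    have hK0 : (0 : ℝ) ≤ K := Nat.cast_nonneg K
    have hx0 : (0 : ℝ) ≤ x := Nat.cast_nonneg x
    have hL0 : (0 : ℝ) ≤ L' := Nat.cast_nonneg L'
    have t2 : 0 ≤ p₁ * (K * s) := by positivity
    have t3 : 0 ≤ (x + 1 : ℝ) * K := by positivity
    have t4 : (s + ((x + L' : ℕ) + 1 : ℝ) * K + p₁ * (K * s)) ≤
        (L' + 1) * (s + (x + 1) * K + p₁ * (K * s)) := by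
      push_cast
      have a1 : (L' : ℝ) * K ≤ L' * ((x + 1) * K) := by
        refine mul_le_mul_of_nonneg_left ?_ hL0
        nlinarith
      have a2 := mul_nonneg hL0 t2
      have a3 : 0 ≤ (L' : ℝ) * s := by positivity
      nlinarith
    have t5 := mul_le_mul_of_nonneg_left t4 hCk
    have t6 : 9 * Real.log 11 ≤ 9 * Real.log 11 * (s + (x + 1) * K + p₁ * (K * s)) := by
      have : 1 ≤ (s + (x + 1) * K + p₁ * (K * s) : ℝ) := by linarith
      nlinarith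
    have e : (Ck * (L' + 1) + 9 * Real.log 11) * (s + (x + 1) * K + p₁ * (K * s)) =
      Ck * ((L' + 1) * (s + (x + 1) * K + p₁ * (K * s))) +
        9 * Real.log 11 * (s + (x + 1) * K + p₁ * (K * s)) := by ring
    rw [e]
    linarith
  · intro u u' _ _ h
    rw [hW]
    exact (Prod.ext_iff.mp h).2
  · intro u u' _ _ h
    rw [hY']
    dsimp only
    have := (Prod.ext_iff.mp h).1
    simp only at this
    rw [this]
  · intro u hu j
    exact (hE1 u.1 j).trans hC₂1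
  · intro u u' hu hu' h a j
    obtain ⟨hi, hb⟩ := hWe u u' h
    obtain ⟨e, he, he'⟩ := rnd u u' hi a j
    rw [he', abs_div]
    have g := hb1 _ _ (uni_pos N hu) (uni_pos N hu') hb
    obtain ⟨f1, f2⟩ := fin_frac N u.2
    have g1 := g 0 j
    have g3 : |((u.2 : ℕ) : ℝ) / 2 ^ N * (Y u.1 1 j - Y u'.1 1 j)| ≤ 1 * 1 :=
      abs_mul_le (by rw [abs_of_nonneg f1]; exact f2) (g 1 j)
    have h1 : (1 : ℝ) / 2 ^ N ≤ 1 := by
      rw [div_le_one h2N]
      exact one_le_pow₀ (by norm_num)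
    have g4 : |(Y u.1 0 j - Y u'.1 0 j) + ((u.2 : ℕ) : ℝ) / 2 ^ N * (Y u.1 1 j - Y u'.1 1 j) +
        e| ≤ 3 := by
      refine (abs_add_le _ _).trans ?_
      have := abs_add_le (Y u.1 0 j - Y u'.1 0 j)
        (((u.2 : ℕ) : ℝ) / 2 ^ N * (Y u.1 1 j - Y u'.1 1 j))
      linarith
    rw [abs_of_pos (by norm_num : (0 : ℝ) < 4), div_le_one (by norm_num)]
    linarith
  · intro u u' hu hu' h hB r hr a
    obtain ⟨hi, hb⟩ := hWe u u' h
    have g := hb1 _ _ (uni_pos N hu) (uni_pos N hu') hb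
    have gp := hpl _ _ (uni_pos N hu) (uni_pos N hu') hb hB 1 g
    obtain ⟨t0, -, ht0⟩ := gp 0
    obtain ⟨t1, -, ht1⟩ := gp 1
    obtain ⟨f1, f2⟩ := fin_frac N u.2
    obtain ⟨θ', hθ'⟩ : ∃ θ : ℝ, θ = ((u.2 : ℕ) : ℝ) / 2 ^ N := ⟨_, rfl⟩
    rw [← hθ'] at f1 f2
    have hr0 : 0 ≤ r := (abs_nonneg _).trans (hr 0 0)
    rw [← hN]
    -- the difference of the positions
    have dif : ∀ j, |Y' u a j - Y' u' a j - (t0 + θ' * t1) / 4 * E u.1 j| ≤
        (2 * C₁ + 1) / 2 ^ N / 4 := by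
      intro j
      obtain ⟨e, he, he'⟩ := rnd u u' hi a j
      rw [← hθ'] at he'
      have e1 : Y' u a j - Y' u' a j - (t0 + θ' * t1) / 4 * E u.1 j =
          ((Y u.1 0 j - Y u'.1 0 j - t0 * E u.1 j) + θ' * (Y u.1 1 j - Y u'.1 1 j -
            t1 * E u.1 j) + e) / 4 := by
        rw [he']
        ring
      rw [e1, abs_div, abs_of_pos (by norm_num : (0 : ℝ) < 4)]
      refine div_le_div_of_nonneg_right ?_ (by norm_num)
      have g1 : |θ' * (Y u.1 1 j - Y u'.1 1 j - t1 * E u.1 j)| ≤ 1 * (C₁ / 2 ^ N) :=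
        abs_mul_le (by rw [abs_of_nonneg f1]; exact f2) (ht1 j)
      have g2 := ht0 j
      refine (abs_add_le _ _).trans ?_
      have g3 := abs_add_le (Y u.1 0 j - Y u'.1 0 j - t0 * E u.1 j)
        (θ' * (Y u.1 1 j - Y u'.1 1 j - t1 * E u.1 j))
      have e2 : (2 * C₁ + 1) / (2 : ℝ) ^ N = C₁ / 2 ^ N + 1 * (C₁ / 2 ^ N) + 1 / 2 ^ N := by ring
      rw [e2]
      linarith
    have hsm : (2 * C₁ + 1) / (2 : ℝ) ^ N / 4 ≤ C₂ / 2 ^ N := by
      rw [hC₂]
      have h1 : (2 * C₁ + 1) / (2 : ℝ) ^ N ≤ (2 * C₁ + 2) / 2 ^ N :=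
        div_le_div_of_nonneg_right (by linarith) h2N.le
      have h2 : 0 ≤ (2 * C₁ + 1) / (2 : ℝ) ^ N := by positivity
      linarith
    rcases le_or_gt r (1 / 2 ^ N) with h1 | h1
    · refine ⟨0, by rw [abs_zero]; positivity, fun j => ?_⟩
      rw [zero_mul, sub_zero]
      refine (hr a j).trans (h1.trans ?_)
      exact div_le_div_of_nonneg_right hC₂1 h2N.le
    · refine ⟨(t0 + θ' * t1) / 4 * |E u.1 (κ u.1)|, ?_, fun j => ?_⟩
      · have g1 := dif (κ u.1)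
        have g2 := hr a (κ u.1)
        have g3 : |((t0 + θ' * t1) / 4 * |E u.1 (κ u.1)|)| = |(t0 + θ' * t1) / 4 *
            E u.1 (κ u.1)| := by
          rw [abs_mul, abs_mul, abs_abs]
        rw [g3]
        have g4 : (t0 + θ' * t1) / 4 * E u.1 (κ u.1) = (Y' u a (κ u.1) - Y' u' a (κ u.1)) -
          (Y' u a (κ u.1) - Y' u' a (κ u.1) - (t0 + θ' * t1) / 4 * E u.1 (κ u.1)) := by ring
        rw [g4]
        refine (abs_sub _ _).trans ?_
        have g5 : (2 * C₁ + 1) / (2 : ℝ) ^ N / 4 ≤ (2 * C₁ + 1) * r := by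
          have h3 : (2 * C₁ + 1) / (2 : ℝ) ^ N = (2 * C₁ + 1) * (1 / 2 ^ N) := by ring
          have h4 := mul_le_mul_of_nonneg_left h1.le (show 0 ≤ 2 * C₁ + 1 by linarith)
          have h5 : 0 ≤ (2 * C₁ + 1) / (2 : ℝ) ^ N := by positivity
          linarith
        rw [hC₂]
        linarith
      · have e1 : (t0 + θ' * t1) / 4 * |E u.1 (κ u.1)| * E' u.1 j =
            (t0 + θ' * t1) / 4 * E u.1 j := by
          rw [hEn u.1 j]
          ring
        rw [e1]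
        exact (dif j).trans hsm
  · refine (Pe_mono_pos (fun u => tri_nonneg hq0 u) ?_).trans hp1
    intro u hu h
    have p1 : 0 < p u.1.1.1 := uni_pos N ((tri_1 hq0).pos (fun u => tri_nonneg hq0 u) hu)
    have p2 : 0 < p u.1.2.1 := uni_pos N ((tri_2 hq0).pos (fun u => tri_nonneg hq0 u) hu)
    have p3 : 0 < p u.2.1 := uni_pos N ((tri_3 hq0).pos (fun u => tri_nonneg hq0 u) hu)
    have e : det3 (E u.1.1.1) (E u.1.2.1) (E u.2.1) = |E u.1.1.1 (κ u.1.1.1)| *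
        |E u.1.2.1 (κ u.1.2.1)| * |E u.2.1 (κ u.2.1)| * det3 (E' u.1.1.1) (E' u.1.2.1)
          (E' u.2.1) := by
      rw [← det3_smul]
      congr 1 <;>
      · funext j
        exact hEn _ j
    rw [e, abs_mul]
    have b1 := hE _ p1 (κ u.1.1.1)
    have b2 := hE _ p2 (κ u.1.2.1)
    have b3 := hE _ p3 (κ u.2.1)
    have b4 : |(|E u.1.1.1 (κ u.1.1.1)| * |E u.1.2.1 (κ u.1.2.1)| * |E u.2.1 (κ u.2.1)|)| ≤
        C₁ * C₁ * C₁ := by
      refine abs_mul_le (abs_mul_le ?_ ?_) ?_ <;> rw [abs_abs] <;> assumption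
    have h3 : (2 : ℝ) ^ L' * (1 / 2 ^ (x + L')) = 1 / 2 ^ x := by
      rw [pow_add]
      field_simp
    rw [← h3]
    exact mul_le_mul (b4.trans hL') h (abs_nonneg _) (by positivity)

end Pool.XF
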